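import Mathlib
import Pool.Agent.H24.BellEval

/-!
# Restricted Bell polynomials are not always real-rooted

For `m = 5` and `n = 718` the restricted Bell polynomial has a non-real root.  The proof
evaluates the polynomial and its first two derivatives at `x = -1855` with the recurrence
`B (n+1) = x * sum_{j < m} (n choose j) * B (n-j)` and checks that Laguerre's inequality
`(B')^2 >= B * B''`, valid for real-rooted polynomials, fails there.
-/

open Polynomial

namespace Pool.Agent.Results.MP_68af1b_co.NonRealRoot

/-- The number of partitions of an `n`-element set into exactly `k` nonempty blocks, each of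
size at most `m`. -/
noncomputable def restrictedStirling (m n k : ℕ) : ℕ :=
  Fintype.card {π : Finpartition (Finset.univ : Finset (Fin n)) //
    π.parts.card = k ∧ ∀ b ∈ π.parts, b.card ≤ m}

/-- The restricted Bell polynomial, the sum over `k` of `restrictedStirling m n k * x ^ k`. -/
noncomputable def restrictedBell (m n : ℕ) : ℝ[X] :=
  ∑ k ∈ Finset.range (n + 1), C (restrictedStirling m n k : ℝ) * X ^ k

lemma restrictedBell_eq_P (m n : ℕ) :
    restrictedBell m n = Pool.Agent.H24.BellRec.P m (Finset.univ : Finset (Fin n)) := by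
  classical
  unfold restrictedBell
  have h1 : ∑ π : Finpartition (Finset.univ : Finset (Fin n)),
      (if ∀ b ∈ π.parts, b.card ≤ m then (X : ℝ[X]) ^ π.parts.card else 0) =
      ∑ π ∈ Finset.univ.filter (fun π : Finpartition (Finset.univ : Finset (Fin n)) =>
        ∀ b ∈ π.parts, b.card ≤ m), (X : ℝ[X]) ^ π.parts.card := by
    rw [Finset.sum_filter]
  have h2 : ∑ π : Finpartition (Finset.univ : Finset (Fin n)),
      (if ∀ b ∈ π.parts, b.card ≤ m then (X : ℝ[X]) ^ π.parts.card else 0) =
      Pool.Agent.H24.BellRec.P m (Finset.univ : Finset (Fin n)) := by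
    unfold Pool.Agent.H24.BellRec.P
    refine Finset.sum_congr ?_ fun _ _ => by congr
    ext π
    simp only [Finset.mem_univ]
  rw [← h2, h1]
  rw [← Finset.sum_fiberwise_of_maps_to (t := Finset.range (n + 1))
    (g := fun π : Finpartition (Finset.univ : Finset (Fin n)) => π.parts.card)]
  · refine Finset.sum_congr rfl fun k _ => ?_
    rw [Finset.sum_congr rfl (g := fun _ => (X : ℝ[X]) ^ k)]
    · rw [Finset.sum_const, nsmul_eq_mul]
      congr 1
      rw [restrictedStirling, Fintype.card_subtype, Finset.filter_filter]
      simp only [map_natCast]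
      congr 2
      ext π
      simp only [Finset.mem_filter, Finset.mem_univ, true_and]
      tauto
    · intro π hπ
      rw [(Finset.mem_filter.mp hπ).2]
  · intro π _
    rw [Finset.mem_range]
    have := π.card_parts_le_card
    rw [Finset.card_univ, Fintype.card_fin] at this
    omega

lemma restrictedBell_eq_Q (m n : ℕ) : restrictedBell m n = Pool.Agent.H24.BellRec.Q m n := by
  rw [restrictedBell_eq_P]
  exact Pool.Agent.H24.BellRec.P_eq_Q m n _ (by simp)

/-- For `m = 5`, `n = 718` the restricted Bell polynomial has a non-real root; hence it is false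
that for all `m ≥ 1` with `m ∉ {3, 4}` and all `n ≥ 1` all roots are real and non-positive. -/
theorem result :
    (∃ z : ℂ, aeval z (restrictedBell 5 718) = 0 ∧ z.im ≠ 0) ∧
      ¬ ∀ m n : ℕ, 1 ≤ m → m ≠ 3 → m ≠ 4 → 1 ≤ n →
        ∀ z : ℂ, aeval z (restrictedBell m n) = 0 → z.im = 0 ∧ z.re ≤ 0 := by
  have h : ∃ z : ℂ, aeval z (restrictedBell 5 718) = 0 ∧ z.im ≠ 0 := by
    rw [restrictedBell_eq_Q]
    exact Pool.Agent.H24.BellEval.exists_nonreal
  refine ⟨h, fun hall => ?_⟩
  obtain ⟨z, hz, him⟩ := h
  exact him (hall 5 718 (by norm_num) (by norm_num) (by norm_num) (by norm_num) z hz).1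

end Pool.Agent.Results.MP_68af1b_co.NonRealRoot
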